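import Pool.Agent.Helper18.PB2.Goals

/-!
# FLA: flatness of every order (MP_b9cb57_an, PB2)
-/

set_option autoImplicit false
set_option linter.unusedVariables false

open MeasureTheory Measure Filter Topology

namespace Pool.Agent.Helper40.PB2

open Pool.Agent.Helper18.PB Pool.Agent.Helper18.PB2

/-- pointwise local bound of `Jf` -/
theorem jf_local {n M : ℕ} (a : ℕ → ℝ → Eu n) (c : ℕ → ℝ) (b : Fin M → ℝ → Eu n) (A : ℕ → ℝ)
    (B : ℝ) (δ : ℕ → ℝ) (hD : Dat a c b A B) (hδ : ∀ k, 0 < δ k ∧ δ k ≤ 1) (hA : ∀ k, 0 ≤ A k)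
    (hc : ∀ k, c k ≤ (1 / 2) ^ k * (δ k / (1 + A k)) ^ (k + 1)) (x : Eu n) (hx : x ≠ 0)
    (hfin : ∃ r : ℝ, 0 < r ∧ ∀ u i j, (b i u - b j u = 0 ∨ r ≤ |inner ℝ (b i u - b j u) x|) ∧
        (b i u + b j u = 0 ∨ r ≤ |inner ℝ (b i u + b j u) x|))
    (hser : ∀ k, ∃ r : ℝ, 0 < r ∧ ∀ u, r ≤ |inner ℝ (a k u) x|)
    (htail : ∃ k₀, ∀ k ≥ k₀, ∀ u, δ k * ‖x‖ ≤ |inner ℝ (a k u) x|) (S : ℕ) :
    ∀ᶠ h in 𝓝 (0 : Eu n), ∀ u, Jf a c b x h u ≤ 4 / ‖x‖ ^ S * ‖h‖ ^ S := by
  obtain ⟨r, hr, hrb⟩ := hfin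
  choose ra hra hra2 using hser
  obtain ⟨k0, hk0⟩ := htail
  have hxp : 0 < ‖x‖ := norm_pos_iff.2 hx
  have hq0 : ∀ k, 0 ≤ δ k / (1 + A k) := fun k => by
    have := hA k
    exact div_nonneg (hδ k).1.le (by positivity)
  have hq1 : ∀ k, δ k / (1 + A k) ≤ 1 := fun k => by
    have := hA k
    rw [div_le_one (by positivity)]
    linarith [(hδ k).2]
  have hqa : ∀ k, δ k / (1 + A k) * A k ≤ 1 := fun k => by
    have := hA k
    rw [div_mul_eq_mul_div, div_le_one (by positivity)]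
    nlinarith [(hδ k).2]
  have hev : ∀ (C r' : ℝ), 0 < r' → ∀ᶠ h in 𝓝 (0 : Eu n), C * ‖h‖ < r' := by
    intro C r' hr'
    have : Continuous (fun h : Eu n => C * ‖h‖) := by fun_prop
    apply (this.tendsto 0).eventually_lt_const
    rw [norm_zero, mul_zero]
    exact hr'
  have hfin' : ∀ k : Fin (max k0 S), ∀ᶠ h in 𝓝 (0 : Eu n), A k * ‖h‖ < ra k := fun k =>
    hev _ _ (hra k)
  filter_upwards [eventually_all.2 hfin', hev (2 * |B|) r hr, hev 1 1 one_pos] with h h1 h2 h3 u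
  have hn := norm_nonneg h
  rw [one_mul] at h3
  -- the finite sum vanishes
  have hbn : ∀ i, ‖b i u‖ ≤ |B| := fun i => (hD.bb i u).trans (le_abs_self B)
  have hz : ∀ v : Eu n, ‖v‖ ≤ 2 * |B| → (v = 0 ∨ r ≤ |inner ℝ v x|) →
      max 0 (|inner ℝ v h| - |inner ℝ v x|) = 0 := by
    intro v hv hvx
    rcases hvx with rfl | hvx
    · simp
    · apply max_eq_left
      have h4 := abs_real_inner_le_norm v h
      have h5 := mul_le_mul_of_nonneg_right hv hn
      linarith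
  have hsum0 : (∑ i, ∑ j, (max 0 (|inner ℝ (b i u - b j u) h| - |inner ℝ (b i u - b j u) x|) +
    max 0 (|inner ℝ (b i u + b j u) h| - |inner ℝ (b i u + b j u) x|))) = 0 := by
    apply Finset.sum_eq_zero
    intro i _
    apply Finset.sum_eq_zero
    intro j _
    rw [hz _ ((norm_sub_le _ _).trans (by linarith [hbn i, hbn j])) (hrb u i j).1,
      hz _ ((norm_add_le _ _).trans (by linarith [hbn i, hbn j])) (hrb u i j).2, add_zero]
  -- the terms of the series
  have hterm : ∀ k, c k * (2 * max 0 (|inner ℝ (a k u) h| - |inner ℝ (a k u) x|)) ≤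
      (1 / 2) ^ k * (2 * ‖h‖ * (‖h‖ / ‖x‖) ^ S) := by
    intro k
    have hAk := hA k
    by_cases hle : |(inner ℝ (a k u) h : ℝ)| ≤ |(inner ℝ (a k u) x : ℝ)|
    · rw [max_eq_left (by linarith), mul_zero, mul_zero]
      positivity
    · push Not at hle
      have hah : |(inner ℝ (a k u) h : ℝ)| ≤ A k * ‖h‖ :=
        (abs_real_inner_le_norm _ _).trans (mul_le_mul_of_nonneg_right (hD.ba k u) hn)
      have hk : max k0 S ≤ k := by
        by_contra hcon
        push Not at hcon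
        have h4 := h1 ⟨k, hcon⟩
        have h5 := hra2 k u
        simp only at h4
        linarith
      have hk1 : k0 ≤ k := (le_max_left _ _).trans hk
      have hk2 : S ≤ k := (le_max_right _ _).trans hk
      have h7 := hk0 k hk1 u
      have h8 : δ k * ‖x‖ ≤ A k * ‖h‖ := h7.trans (hle.le.trans hah)
      have h9 : δ k / (1 + A k) ≤ ‖h‖ / ‖x‖ := by
        rw [div_le_div_iff₀ (by positivity) hxp]
        nlinarith
      have h10 : (δ k / (1 + A k)) ^ k ≤ (‖h‖ / ‖x‖) ^ S :=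
        (pow_le_pow_of_le_one (hq0 k) (hq1 k) hk2).trans (pow_le_pow_left₀ (hq0 k) h9 S)
      have h11 : max 0 (|(inner ℝ (a k u) h : ℝ)| - |(inner ℝ (a k u) x : ℝ)|) ≤ A k * ‖h‖ := by
        apply max_le (by positivity)
        have := abs_nonneg (inner ℝ (a k u) x : ℝ)
        linarith
      have h12 : 0 ≤ max 0 (|(inner ℝ (a k u) h : ℝ)| - |(inner ℝ (a k u) x : ℝ)|) :=
        le_max_left _ _
      calc c k * (2 * max 0 (|inner ℝ (a k u) h| - |inner ℝ (a k u) x|))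
          ≤ ((1 / 2) ^ k * (δ k / (1 + A k)) ^ (k + 1)) * (2 * (A k * ‖h‖)) := by
            apply mul_le_mul (hc k) _ (by positivity)
              (mul_nonneg (by positivity) (pow_nonneg (hq0 k) _))
            linarith
        _ = (1 / 2) ^ k * (2 * ‖h‖ * ((δ k / (1 + A k)) ^ k * (δ k / (1 + A k) * A k))) := by ring
        _ ≤ (1 / 2) ^ k * (2 * ‖h‖ * ((‖h‖ / ‖x‖) ^ S * 1)) := by
            apply mul_le_mul_of_nonneg_left _ (by positivity)
            apply mul_le_mul_of_nonneg_left _ (by positivity)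
            apply mul_le_mul h10 (hqa k) (mul_nonneg (hq0 k) hAk) (by positivity)
        _ = (1 / 2) ^ k * (2 * ‖h‖ * (‖h‖ / ‖x‖) ^ S) := by ring
  have hg : Summable (fun k : ℕ => (1 / 2 : ℝ) ^ k * (2 * ‖h‖ * (‖h‖ / ‖x‖) ^ S)) :=
    summable_geometric_two.mul_right _
  have hs : Summable (fun k => c k * (2 * max 0 (|inner ℝ (a k u) h| - |inner ℝ (a k u) x|))) := by
    refine Summable.of_nonneg_of_le (fun k => ?_) hterm hg
    exact mul_nonneg (hD.cpos k).le (mul_nonneg zero_le_two (le_max_left _ _))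
  have h14 := hs.tsum_le_tsum hterm hg
  rw [tsum_mul_right, tsum_geometric_two] at h14
  unfold Jf
  rw [hsum0, zero_add]
  refine h14.trans ?_
  have h15 : 2 * (2 * ‖h‖ * (‖h‖ / ‖x‖) ^ S) = ‖h‖ * (4 / ‖x‖ ^ S * ‖h‖ ^ S) := by
    rw [div_pow]; ring
  rw [h15]
  have h16 : 0 ≤ 4 / ‖x‖ ^ S * ‖h‖ ^ S := by positivity
  nlinarith

theorem fla (hD2 : HD2) : HFla := by
  intro n M a c b A B δ hD hδ hA hc Y _ _ L hL x hx1 hfin hser htail s hs
  have hx : x ≠ 0 := by
    rintro rfl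
    rw [map_zero, norm_zero] at hx1
    exact zero_ne_one hx1
  obtain ⟨S, hS⟩ := exists_nat_ge s
  have hloc := jf_local a c b A B δ hD hδ hA hc x hx hfin hser htail S
  set D : ℝ := 4 / ‖x‖ ^ S with hDd
  have hD0 : 0 ≤ D := by positivity
  obtain ⟨_, hJint, hJ2⟩ := hD2 n M a c b A B hD
  -- the norming functional
  have hpx : L x ≠ 0 := by
    intro h
    rw [h, norm_zero] at hx1
    exact zero_ne_one hx1
  obtain ⟨w, hw1, hw2⟩ := exists_dual_vector ℝ (L x) (norm_ne_zero_iff.2 hpx)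
  have hw2' : w (L x) = 1 := by
    rw [hw2, hx1]; simp
  -- the inverse is bounded
  have hfd : FiniteDimensional ℝ Y := LinearEquiv.finiteDimensional L
  let Lc : Y →L[ℝ] Eu n := LinearMap.toContinuousLinearMap L.symm.toLinearMap
  obtain ⟨K, hK0, hK⟩ : ∃ K : ℝ, 0 < K ∧ ∀ h : Eu n, ‖h‖ ≤ K * ‖L h‖ := by
    refine ⟨‖Lc‖ + 1, by positivity, fun h => ?_⟩
    have h1 := Lc.le_opNorm (L h)
    have h2 : Lc (L h) = h := L.symm_apply_apply h
    rw [h2] at h1
    have := norm_nonneg (L h)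
    nlinarith
  obtain ⟨r, hr0, hr⟩ := Metric.eventually_nhds_iff.1 hloc
  set r0 := min (r / 2) 1 with hr0d
  have hr00 : 0 < r0 := lt_min (by linarith) one_pos
  refine ⟨w, hw1.le, hw2', D * K ^ s + (K / r0) ^ (s - 1), ?_⟩
  intro y hy
  obtain ⟨h, rfl⟩ := L.surjective y
  have hyn := norm_nonneg (L h)
  have hs0 : 0 ≤ s := zero_le_one.trans hs
  have hpow : 0 ≤ ‖L h‖ ^ s := Real.rpow_nonneg hyn s
  have hKr : 0 ≤ (K / r0) ^ (s - 1) := Real.rpow_nonneg (by positivity) _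
  have hKs : 0 ≤ K ^ s := Real.rpow_nonneg hK0.le _
  by_cases hsm : ‖h‖ ≤ r0
  · have hhr : dist h 0 < r := by
      rw [dist_zero_right]
      have := min_le_left (r / 2) 1
      linarith
    have e1 := hr hhr
    have e2 := hJ2 x h
    have e3 : (∫ u in Set.Icc (0 : ℝ) 1, Jf a c b x h u) ≤ D * ‖h‖ ^ S := by
      have e4 : (∫ u in Set.Icc (0 : ℝ) 1, Jf a c b x h u) ≤
          ∫ u in Set.Icc (0 : ℝ) 1, (D * ‖h‖ ^ S : ℝ) :=
        setIntegral_mono (hJint x h) (integrableOn_const (by simp)) (fun u => e1 u)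
      refine e4.trans (le_of_eq ?_)
      simp
    have e5 : 1 ≤ ‖L (x - h)‖ := by
      have h1 := w.le_opNorm (L (x - h))
      rw [hw1, one_mul, map_sub, map_sub, hw2', hy, sub_zero, norm_one] at h1
      rwa [map_sub]
    have e6 : ‖L x + L h‖ ≤ 1 + D * ‖h‖ ^ S := by
      rw [← map_add, hL]
      rw [hL] at e5 hx1
      linarith
    have h1r : ‖h‖ ≤ 1 := hsm.trans (min_le_right _ _)
    have h4 : ‖h‖ ^ S ≤ K ^ s * ‖L h‖ ^ s := by
      rw [← Real.mul_rpow hK0.le hyn]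
      calc ‖h‖ ^ S = ‖h‖ ^ (S : ℝ) := (Real.rpow_natCast _ _).symm
        _ ≤ ‖h‖ ^ s := by
            rcases (norm_nonneg h).eq_or_lt with h0 | h0
            · rw [← h0, Real.zero_rpow (by linarith), Real.zero_rpow (by linarith)]
            · exact Real.rpow_le_rpow_of_exponent_ge h0 h1r hS
        _ ≤ (K * ‖L h‖) ^ s := Real.rpow_le_rpow (norm_nonneg _) (hK h) hs0
    have h5 := mul_le_mul_of_nonneg_left h4 hD0
    have h6 := mul_nonneg hKr hpow
    linarith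
  · push Not at hsm
    have h3 : ‖L x + L h‖ ≤ 1 + ‖L h‖ := by
      have := norm_add_le (L x) (L h)
      rwa [hx1] at this
    have h4 : r0 < K * ‖L h‖ := hsm.trans_le (hK h)
    have hpos : 0 < ‖L h‖ := by
      by_contra hcon
      have h0 : ‖L h‖ = 0 := le_antisymm (not_lt.1 hcon) hyn
      rw [h0, mul_zero] at h4
      linarith
    have h5 : 1 ≤ (K / r0 * ‖L h‖) ^ (s - 1) := by
      apply Real.one_le_rpow _ (by linarith)
      rw [div_mul_eq_mul_div, le_div_iff₀ hr00, one_mul]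
      exact h4.le
    rw [Real.mul_rpow (by positivity) hyn] at h5
    have h6 : ‖L h‖ ^ s = ‖L h‖ ^ (s - 1) * ‖L h‖ := by
      rw [Real.rpow_sub_one hpos.ne' s]
      field_simp
    have h7 := mul_le_mul_of_nonneg_right h5 hyn
    have h8 := mul_nonneg (mul_nonneg hD0 hKs) hpow
    have h9 : (K / r0) ^ (s - 1) * ‖L h‖ ^ (s - 1) * ‖L h‖ = (K / r0) ^ (s - 1) * ‖L h‖ ^ s := by
      rw [h6]; ring
    linarith

end Pool.Agent.Helper40.PB2
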